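import Pool.Agent.NPG.Stmts

/-!
# NPG.DEC: decomposition along a locally finite closed cover
-/

set_option autoImplicit false

open MeasureTheory Set Topology
open scoped BigOperators Pointwise

namespace Pool.Agent.NPG.H21

open Pool.Agent.LSG Pool.Agent.NPG

section
variable {X : Type} [TopologicalSpace X]

theorem ct (f : ↥(Cp X)) : Continuous f.1 := f.2

theorem ev_cont (x : X) : Continuous fun f : ↥(Cp X) => f.1 x :=
  (continuous_apply x).comp continuous_subtype_val

/-- the union of the earlier sets -/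
def An (D : ℕ → Set X) (n : ℕ) : Set X := {x | ∃ m < n, x ∈ D m}

theorem An_closed (D : ℕ → Set X) (hD : ∀ n, IsClosed (D n)) (n : ℕ) : IsClosed (An D n) := by
  have : An D n = ⋃ m ∈ Set.Iio n, D m := by
    ext x
    simp [An]
  rw [this]
  exact (Set.finite_Iio n).isClosed_biUnion fun m _ => hD m

/-- restriction -/
noncomputable def res (A : Set X) : ↥(Cp X) →L[ℝ] ↥(Cp A) where
  toFun f := ⟨fun a => f.1 a.1, (ct f).comp continuous_subtype_val⟩
  map_add' _ _ := rfl
  map_smul' _ _ := rfl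
  cont := by
    apply Continuous.subtype_mk
    apply continuous_pi
    intro a
    exact ev_cont a.1

/-- the `n`-th component of `Φ` -/
noncomputable def phi (D : ℕ → Set X) (n : ℕ) (E : ↥(Cp X) →L[ℝ] ↥(Cp X))
    (hE : ∀ f : ↥(Cp X), ∀ x ∈ An D n, (E f).1 x = f.1 x) :
    ↥(Cp X) →L[ℝ] ↥(Rv (D n) (Ear D n)) where
  toFun f := ⟨fun x => f.1 x.1 - (E f).1 x.1,
    ((ct f).sub (ct (E f))).comp continuous_subtype_val,
    fun x hx => by
      show f.1 x.1 - (E f).1 x.1 = 0
      rw [hE f x.1 hx, sub_self]⟩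
  map_add' f g := by
    apply Subtype.ext
    funext x
    show (f + g).1 x.1 - (E (f + g)).1 x.1 = (f.1 x.1 - (E f).1 x.1) + (g.1 x.1 - (E g).1 x.1)
    rw [map_add]
    show (f.1 x.1 + g.1 x.1) - ((E f).1 x.1 + (E g).1 x.1) = _
    ring
  map_smul' c f := by
    apply Subtype.ext
    funext x
    show (c • f).1 x.1 - (E (c • f)).1 x.1 = c * (f.1 x.1 - (E f).1 x.1)
    rw [map_smul]
    show c * f.1 x.1 - c * (E f).1 x.1 = _
    ring
  cont := by
    apply Continuous.subtype_mk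
    apply continuous_pi
    intro x
    exact (ev_cont x.1).sub ((ev_cont x.1).comp E.continuous)

/-- the partial sums -/
noncomputable def FF (D : ℕ → Set X) (E : ℕ → (↥(Cp X) →L[ℝ] ↥(Cp X)))
    (j : ∀ n, ↥(Rv (D n) (Ear D n)) →L[ℝ] ↥(Cp X)) :
    ℕ → ((∀ n, ↥(Rv (D n) (Ear D n))) →L[ℝ] ↥(Cp X))
  | 0 => 0
  | n + 1 => (E n).comp (FF D E j n) + (j n).comp (ContinuousLinearMap.proj n)

theorem FF_succ (D : ℕ → Set X) (E : ℕ → (↥(Cp X) →L[ℝ] ↥(Cp X)))
    (j : ∀ n, ↥(Rv (D n) (Ear D n)) →L[ℝ] ↥(Cp X)) (n : ℕ)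
    (g : ∀ n, ↥(Rv (D n) (Ear D n))) (x : X) :
    (FF D E j (n + 1) g).1 x = (E n (FF D E j n g)).1 x + (j n (g n)).1 x := rfl

theorem FF_stab (D : ℕ → Set X) (E : ℕ → (↥(Cp X) →L[ℝ] ↥(Cp X)))
    (j : ∀ n, ↥(Rv (D n) (Ear D n)) →L[ℝ] ↥(Cp X))
    (hE : ∀ n, ∀ f : ↥(Cp X), ∀ x ∈ An D n, (E n f).1 x = f.1 x)
    (hj : ∀ n, ∀ g, ∀ x ∈ An D n, (j n g).1 x = 0)
    (g : ∀ n, ↥(Rv (D n) (Ear D n))) (x : X) (n : ℕ) (hx : x ∈ An D n) :
    ∀ k, n ≤ k → (FF D E j k g).1 x = (FF D E j n g).1 x := by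
  intro k hk
  induction k, hk using Nat.le_induction with
  | base => rfl
  | succ k hk ih =>
    have hxk : x ∈ An D k := by
      obtain ⟨m, hm, hxm⟩ := hx
      exact ⟨m, lt_of_lt_of_le hm hk, hxm⟩
    rw [FF_succ, hE k _ x hxk, hj k _ x hxk, add_zero, ih]

end

theorem dec (hdug : DugStmt) (hjex : JexStmt) : DecStmt := by
  classical
  intro X _ _ D hD hLF hcov
  have hAc : ∀ n, IsClosed (An D n) := An_closed D hD
  choose e he using fun n => hdug X (An D n) (hAc n)
  let E : ℕ → (↥(Cp X) →L[ℝ] ↥(Cp X)) := fun n => (e n).comp (res (An D n))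
  have hE : ∀ n, ∀ f : ↥(Cp X), ∀ x ∈ An D n, (E n f).1 x = f.1 x := by
    intro n f x hx
    exact he n (res (An D n) f) ⟨x, hx⟩
  have hEd : ∀ n, ∀ f f' : ↥(Cp X), (∀ x ∈ An D n, f.1 x = f'.1 x) → E n f = E n f' := by
    intro n f f' h
    have h1 : res (An D n) f = res (An D n) f' := by
      apply Subtype.ext
      funext x
      exact h x.1 x.2
    show (e n) (res (An D n) f) = (e n) (res (An D n) f')
    rw [h1]
  have hjn : ∀ n, ∃ j : ↥(Rv (D n) (Ear D n)) →L[ℝ] ↥(Cp X), ∀ g : ↥(Rv (D n) (Ear D n)),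
      (∀ x : D n, (j g).1 x.1 = g.1 x) ∧ ∀ x ∈ An D n, (j g).1 x = 0 :=
    fun n => hjex X (An D n) (D n) (hAc n) (hD n)
  choose j hj using hjn
  have hj0 : ∀ n, ∀ g, ∀ x ∈ An D n, (j n g).1 x = 0 := fun n g => (hj n g).2
  have hj1 : ∀ n, ∀ g, ∀ x : D n, (j n g).1 x.1 = g.1 x := fun n g => (hj n g).1
  choose m hm using hcov
  have hmA : ∀ x, x ∈ An D (m x + 1) := fun x => ⟨m x, Nat.lt_succ_self _, hm x⟩
  -- the value of `Ψ g`
  let P : (∀ n, ↥(Rv (D n) (Ear D n))) → X → ℝ := fun g x => (FF D E j (m x + 1) g).1 x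
  have hP : ∀ g n, ∀ x ∈ An D n, P g x = (FF D E j n g).1 x := by
    intro g n x hx
    have h1 := FF_stab D E j hE hj0 g x n hx (max n (m x + 1)) (le_max_left _ _)
    have h2 := FF_stab D E j hE hj0 g x (m x + 1) (hmA x) (max n (m x + 1)) (le_max_right _ _)
    show (FF D E j (m x + 1) g).1 x = _
    rw [← h1, ← h2]
  have hPc : ∀ g, Continuous (P g) := by
    intro g
    rw [continuous_iff_continuousAt]
    intro x
    obtain ⟨W, hW, hfin⟩ := hLF x
    obtain ⟨N, hN⟩ := hfin.bddAbove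
    have hWA : ∀ y ∈ W, y ∈ An D (N + 1) := by
      intro y hy
      refine ⟨m y, Nat.lt_succ_of_le (hN ?_), hm y⟩
      exact ⟨y, hm y, hy⟩
    have h1 : ContinuousAt (FF D E j (N + 1) g).1 x := (ct (FF D E j (N + 1) g)).continuousAt
    refine h1.congr ?_
    filter_upwards [hW] with y hy
    exact (hP g (N + 1) y (hWA y hy)).symm
  let Ψ : (∀ n, ↥(Rv (D n) (Ear D n))) →L[ℝ] ↥(Cp X) :=
    { toFun := fun g => ⟨P g, hPc g⟩
      map_add' := by
        intro g g'
        apply Subtype.ext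
        funext x
        show (FF D E j (m x + 1) (g + g')).1 x =
          (FF D E j (m x + 1) g).1 x + (FF D E j (m x + 1) g').1 x
        rw [map_add]
        rfl
      map_smul' := by
        intro c g
        apply Subtype.ext
        funext x
        show (FF D E j (m x + 1) (c • g)).1 x = c * (FF D E j (m x + 1) g).1 x
        rw [map_smul]
        rfl
      cont := by
        apply Continuous.subtype_mk
        apply continuous_pi
        intro x
        exact (ev_cont x).comp (FF D E j (m x + 1)).continuous }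
  have hΨ : ∀ g x, (Ψ g).1 x = P g x := fun _ _ => rfl
  let Φ : ↥(Cp X) →L[ℝ] (∀ n, ↥(Rv (D n) (Ear D n))) :=
    ContinuousLinearMap.pi fun n => phi D n (E n) (hE n)
  have hΦ : ∀ f n (x : D n), (Φ f n).1 x = f.1 x.1 - (E n f).1 x.1 := fun _ _ _ => rfl
  have h1 : ∀ f, Ψ (Φ f) = f := by
    intro f
    have hind : ∀ n, ∀ x ∈ An D n, (FF D E j n (Φ f)).1 x = f.1 x := by
      intro n
      induction n with
      | zero =>
        intro x hx
        obtain ⟨m', hm', _⟩ := hx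
        exact absurd hm' (Nat.not_lt_zero _)
      | succ n ih =>
        intro x hx
        rw [FF_succ]
        by_cases hxn : x ∈ An D n
        · rw [hE n _ x hxn, hj0 n _ x hxn, add_zero]
          exact ih x hxn
        · have hxD : x ∈ D n := by
            obtain ⟨m', hm', hxm⟩ := hx
            rcases Nat.lt_succ_iff_lt_or_eq.1 hm' with h | h
            · exact absurd ⟨m', h, hxm⟩ hxn
            · rw [h] at hxm
              exact hxm
          have h2 : E n (FF D E j n (Φ f)) = E n f := hEd n _ _ ih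
          rw [h2, hj1 n (Φ f n) ⟨x, hxD⟩, hΦ]
          ring
    apply Subtype.ext
    funext x
    rw [hΨ]
    exact hind (m x + 1) x (hmA x)
  have h2 : ∀ g, Φ (Ψ g) = g := by
    intro g
    funext n
    apply Subtype.ext
    funext x
    rw [hΦ]
    have h3 : E n (Ψ g) = E n (FF D E j n g) := hEd n _ _ fun y hy => hP g n y hy
    have hxA : x.1 ∈ An D (n + 1) := ⟨n, Nat.lt_succ_self n, x.2⟩
    have h4 : (Ψ g).1 x.1 = (FF D E j (n + 1) g).1 x.1 := hP g (n + 1) x.1 hxA
    rw [h3, h4, FF_succ, hj1 n (g n) x]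
    ring
  exact ⟨ContinuousLinearEquiv.equivOfInverse Φ Ψ h1 h2⟩

end Pool.Agent.NPG.H21
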